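import Pool.Agent.Lib.InvDomain.Zero

set_option autoImplicit false

open MeasureTheory Metric Topology
open scoped Manifold ContDiff

namespace Pool.Agent.Lib.InvDomain

variable {n : ℕ}

/-- left inverse of an injective continuous map on the closed unit ball, extended by Tietze -/
theorem exists_left_inverse (f : EuclideanSpace ℝ (Fin n) → EuclideanSpace ℝ (Fin n))
    (hf : ContinuousOn f (closedBall 0 1)) (hinj : Set.InjOn f (closedBall 0 1)) :
    ∃ G : EuclideanSpace ℝ (Fin n) → EuclideanSpace ℝ (Fin n), Continuous G ∧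
      ∀ x ∈ closedBall (0 : EuclideanSpace ℝ (Fin n)) 1, G (f x) = x := by
  set K := closedBall (0 : EuclideanSpace ℝ (Fin n)) 1 with hK
  have hKc : IsCompact K := isCompact_closedBall 0 1
  have : CompactSpace K := isCompact_iff_compactSpace.mp hKc
  have hYc : IsCompact (f '' K) := hKc.image_of_continuousOn hf
  let F : K ≃ (f '' K) := Equiv.Set.imageOfInjOn f K hinj
  have hFc : Continuous F := by
    apply Continuous.subtype_mk
    exact hf.domRestrict
  let Fh : K ≃ₜ (f '' K) := Continuous.homeoOfEquivCompactToT2 hFc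
  let g0 : C((f '' K), EuclideanSpace ℝ (Fin n)) := ⟨fun y => (Fh.symm y : EuclideanSpace ℝ (Fin n)),
    continuous_subtype_val.comp Fh.symm.continuous⟩
  obtain ⟨G, hG⟩ := ContinuousMap.exists_restrict_eq hYc.isClosed g0
  refine ⟨G, G.continuous, fun x hx => ?_⟩
  have h1 : G.restrict (f '' K) ⟨f x, Set.mem_image_of_mem f hx⟩ = g0 ⟨f x, Set.mem_image_of_mem f hx⟩ := by
    rw [hG]
  have h2 : G (f x) = g0 ⟨f x, Set.mem_image_of_mem f hx⟩ := h1
  rw [h2]
  have h3 : Fh ⟨x, hx⟩ = ⟨f x, Set.mem_image_of_mem f hx⟩ := rfl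
  show ((Fh.symm ⟨f x, Set.mem_image_of_mem f hx⟩ : K) : EuclideanSpace ℝ (Fin n)) = x
  rw [← h3, Homeomorph.symm_apply_apply]

/-- **Invariance of domain**, local form: an injective continuous map of the closed unit ball of
`ℝ^n` (`n > 0`) into `ℝ^n` maps the centre to an interior point of the image. -/
theorem mem_interior_image (hn : 0 < n) (f : EuclideanSpace ℝ (Fin n) → EuclideanSpace ℝ (Fin n))
    (hf : ContinuousOn f (closedBall 0 1)) (hinj : Set.InjOn f (closedBall 0 1)) :
    f 0 ∈ interior (f '' closedBall 0 1) := by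
  have : Nontrivial (EuclideanSpace ℝ (Fin n)) := by
    have : Nonempty (Fin n) := ⟨⟨0, hn⟩⟩
    infer_instance
  obtain ⟨G, hGc, hG⟩ := exists_left_inverse f hf hinj
  set K := closedBall (0 : EuclideanSpace ℝ (Fin n)) 1 with hK
  have hKc : IsCompact K := isCompact_closedBall 0 1
  have h0K : (0 : EuclideanSpace ℝ (Fin n)) ∈ K := by simp [hK]
  have hYc : IsCompact (f '' K) := hKc.image_of_continuousOn hf
  by_contra hcon
  -- a small ball on which `G` is small
  have hG0 : G (f 0) = 0 := hG 0 h0K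
  have hev : ∀ᶠ y in 𝓝 (f 0), ‖G y‖ < 1 / 10 := by
    have : ContinuousAt (fun y => ‖G y‖) (f 0) := hGc.norm.continuousAt
    apply this.eventually (gt_mem_nhds _)
    simp only [hG0, norm_zero]; norm_num
  obtain ⟨ε2, hε2, hball⟩ := Metric.eventually_nhds_iff.mp hev
  set ε := ε2 / 3 with hε
  have hε0 : 0 < ε := by positivity
  -- a point close to `f 0` outside the image
  obtain ⟨c, hcY, hcd⟩ : ∃ c, c ∉ f '' K ∧ dist c (f 0) < ε := by
    by_contra hh
    push Not at hh
    apply hcon
    rw [mem_interior_iff_mem_nhds]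
    filter_upwards [ball_mem_nhds (f 0) hε0] with y hy
    by_contra hyY
    exact absurd (mem_ball.mp hy) (not_lt.mpr (hh y hyY))
  have hsmall : ∀ y, ‖y - c‖ ≤ ε → ‖G y‖ < 1 / 10 := by
    intro y hy
    apply hball
    calc dist y (f 0) ≤ dist y c + dist c (f 0) := dist_triangle _ _ _
      _ ≤ ε + ε := by rw [dist_eq_norm]; linarith
      _ < ε2 := by rw [hε]; linarith
  -- lower bound of `G` on the far part
  have hS1c : IsCompact (f '' K ∩ {y | ε ≤ ‖y - c‖}) :=
    hYc.inter_right (isClosed_le continuous_const (by fun_prop))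
  obtain ⟨δ, hδ0, hδ1, hδ⟩ : ∃ δ : ℝ, 0 < δ ∧ δ ≤ 1 / 10 ∧ ∀ y ∈ f '' K, ε ≤ ‖y - c‖ → δ ≤ ‖G y‖ := by
    by_cases hne : (f '' K ∩ {y | ε ≤ ‖y - c‖}).Nonempty
    · obtain ⟨y1, hy1m, hy1⟩ := hS1c.exists_isMinOn hne (f := fun y => ‖G y‖) hGc.norm.continuousOn
      refine ⟨min ‖G y1‖ (1 / 10), lt_min ?_ (by norm_num), min_le_right _ _, ?_⟩
      · rw [norm_pos_iff]
        intro h0
        obtain ⟨⟨x, hx, rfl⟩, hy1f⟩ := hy1m
        rw [hG x hx] at h0
        subst h0
        have h3 : ε ≤ ‖f 0 - c‖ := hy1f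
        rw [norm_sub_rev, ← dist_eq_norm] at h3
        linarith
      · intro y hy hyc
        exact (min_le_left _ _).trans (hy1 ⟨hy, hyc⟩)
    · refine ⟨1 / 10, by norm_num, le_rfl, ?_⟩
      intro y hy hyc
      exact absurd ⟨y, hy, hyc⟩ hne
  -- smooth approximation avoiding zero on the sphere
  obtain ⟨P, hPc, hP⟩ := exists_smooth_approx G hGc (half_pos hδ0)
  have hnull : volume (P '' sphere c ε) = 0 := by
    apply addHaar_image_eq_zero_of_differentiableOn_of_addHaar_eq_zero
    · exact (hPc.differentiable (by norm_num)).differentiableOn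
    · exact Measure.addHaar_sphere _ _ _
  obtain ⟨v, hv, hvP⟩ : ∃ v : EuclideanSpace ℝ (Fin n), ‖v‖ < δ / 2 ∧ v ∉ P '' sphere c ε := by
    by_contra hh
    push Not at hh
    have h1 : ball (0 : EuclideanSpace ℝ (Fin n)) (δ / 2) ⊆ P '' sphere c ε := by
      intro v hv
      exact hh v (by simpa using hv)
    have h2 := measure_mono (μ := volume) h1
    rw [hnull] at h2
    exact absurd h2 (not_le.mpr (measure_ball_pos volume _ (half_pos hδ0)))
  -- the perturbed map
  set Φ : EuclideanSpace ℝ (Fin n) → EuclideanSpace ℝ (Fin n) := fun y => c + (max (ε / ‖y - c‖) 1) • (y - c) with hΦ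
  set H : EuclideanSpace ℝ (Fin n) → EuclideanSpace ℝ (Fin n) := fun y => P (Φ y) - v with hH
  have hyc0 : ∀ y ∈ f '' K, ‖y - c‖ ≠ 0 := by
    intro y hy h
    rw [norm_eq_zero, sub_eq_zero] at h
    exact hcY (h ▸ hy)
  have hΦc : ContinuousOn Φ (f '' K) := by
    have h1 : ContinuousOn (fun y : EuclideanSpace ℝ (Fin n) => ε / ‖y - c‖) (f '' K) :=
      ContinuousOn.div continuousOn_const (by fun_prop) hyc0
    have h2 : ContinuousOn (fun y : EuclideanSpace ℝ (Fin n) => max (ε / ‖y - c‖) 1) (f '' K) :=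
      ContinuousOn.sup h1 continuousOn_const
    have h3 : ContinuousOn (fun y : EuclideanSpace ℝ (Fin n) => y - c) (f '' K) := by fun_prop
    exact continuousOn_const.add (h2.smul h3)
  have hHc : ContinuousOn H (f '' K) := by
    apply ContinuousOn.sub _ continuousOn_const
    exact hPc.continuous.comp_continuousOn hΦc
  have hfar : ∀ y, ε ≤ ‖y - c‖ → Φ y = y := by
    intro y hy
    have h1 : 0 < ‖y - c‖ := lt_of_lt_of_le hε0 hy
    simp only [hΦ]
    rw [max_eq_right ((div_le_one h1).mpr hy), one_smul, add_sub_cancel]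
  have hnear : ∀ y ∈ f '' K, ‖y - c‖ < ε → ‖Φ y - c‖ = ε := by
    intro y hy hy2
    have h1 : 0 < ‖y - c‖ := lt_of_le_of_ne (norm_nonneg _) (Ne.symm (hyc0 y hy))
    simp only [hΦ]
    rw [max_eq_left ((one_le_div h1).mpr hy2.le), add_sub_cancel_left, norm_smul, Real.norm_eq_abs,
      abs_of_pos (by positivity), div_mul_cancel₀ _ h1.ne']
  have hPG : ∀ z, ‖(P z - v) - G z‖ < δ := by
    intro z
    calc ‖(P z - v) - G z‖ = ‖(P z - G z) - v‖ := by congr 1; abel
      _ ≤ ‖P z - G z‖ + ‖v‖ := norm_sub_le _ _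
      _ < δ / 2 + δ / 2 := add_lt_add (hP z) hv
      _ = δ := by ring
  have hHne : ∀ y ∈ f '' K, H y ≠ 0 := by
    intro y hy h0
    by_cases h : ε ≤ ‖y - c‖
    · have h1 := hPG y
      have h2 : P y - v = 0 := by
        have : H y = P y - v := by simp only [hH]; rw [hfar y h]
        rw [← this, h0]
      rw [h2, zero_sub, norm_neg] at h1
      exact absurd (hδ y hy h) (not_le.mpr h1)
    · push Not at h
      have h1 := hnear y hy h
      apply hvP
      refine ⟨Φ y, by rw [mem_sphere, dist_eq_norm]; exact h1, ?_⟩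
      exact sub_eq_zero.mp h0
  have hHG : ∀ y ∈ f '' K, ‖H y - G y‖ ≤ 1 := by
    intro y hy
    by_cases h : ε ≤ ‖y - c‖
    · have : H y = P y - v := by simp only [hH]; rw [hfar y h]
      rw [this]
      have := hPG y
      linarith
    · push Not at h
      have h1 := hnear y hy h
      have h2 := hPG (Φ y)
      have h3 := hsmall (Φ y) h1.le
      have h4 := hsmall y h.le
      calc ‖H y - G y‖ = ‖((P (Φ y) - v) - G (Φ y)) + (G (Φ y) - G y)‖ := by
            simp only [hH]; congr 1; abel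
        _ ≤ ‖(P (Φ y) - v) - G (Φ y)‖ + ‖G (Φ y) - G y‖ := norm_add_le _ _
        _ ≤ ‖(P (Φ y) - v) - G (Φ y)‖ + (‖G (Φ y)‖ + ‖G y‖) := by
            gcongr; exact norm_sub_le _ _
        _ ≤ 1 := by linarith
  -- apply the zero lemma
  obtain ⟨x, hx, hx0⟩ := exists_zero_of_close (fun x => H (f x))
    (hHc.comp hf (fun x hx => Set.mem_image_of_mem f hx)) (fun x hx => by
      have := hHG (f x) (Set.mem_image_of_mem f hx)
      rw [hG x hx] at this
      exact this)
  exact hHne (f x) (Set.mem_image_of_mem f hx) hx0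

end Pool.Agent.Lib.InvDomain
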