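import Pool.Agent.Lib.InvDomain.Main

set_option autoImplicit false

open MeasureTheory Metric Topology
open scoped Manifold ContDiff

namespace Pool.Agent.Lib.InvDomain

variable {n : ℕ}

/-- **Invariance of domain**, local form on an arbitrary ball. -/
theorem mem_interior_image_ball (hn : 0 < n) (f : EuclideanSpace ℝ (Fin n) → EuclideanSpace ℝ (Fin n))
    (x : EuclideanSpace ℝ (Fin n)) {r : ℝ} (hr : 0 < r)
    (hf : ContinuousOn f (closedBall x r)) (hinj : Set.InjOn f (closedBall x r)) :
    f x ∈ interior (f '' closedBall x r) := by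
  set σ : EuclideanSpace ℝ (Fin n) → EuclideanSpace ℝ (Fin n) := fun y => x + r • y with hσ
  have hσm : Set.MapsTo σ (closedBall 0 1) (closedBall x r) := by
    intro y hy
    rw [mem_closedBall_zero_iff] at hy
    rw [mem_closedBall, dist_eq_norm]
    simp only [hσ, add_sub_cancel_left, norm_smul, Real.norm_eq_abs, abs_of_pos hr]
    nlinarith
  have hσc : Continuous σ := by fun_prop
  have hσi : Function.Injective σ := by
    intro a b hab
    simp only [hσ] at hab
    have := add_left_cancel hab
    exact smul_right_injective _ hr.ne' this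
  have h1 := mem_interior_image hn (fun y => f (σ y)) (hf.comp hσc.continuousOn hσm)
    (fun a ha b hb hab => hσi (hinj (hσm ha) (hσm hb) hab))
  have h2 : σ 0 = x := by simp [hσ]
  simp only [h2] at h1
  refine interior_mono ?_ h1
  rintro _ ⟨y, hy, rfl⟩
  exact ⟨σ y, hσm hy, rfl⟩

/-- **Invariance of domain**: an injective continuous map of an open subset of `ℝ^n` into `ℝ^n` has
open image. -/
theorem isOpen_image (hn : 0 < n) (f : EuclideanSpace ℝ (Fin n) → EuclideanSpace ℝ (Fin n))
    (U : Set (EuclideanSpace ℝ (Fin n))) (hU : IsOpen U)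
    (hf : ContinuousOn f U) (hinj : Set.InjOn f U) : IsOpen (f '' U) := by
  rw [isOpen_iff_mem_nhds]
  rintro _ ⟨x, hx, rfl⟩
  obtain ⟨r, hr, hrU⟩ := Metric.nhds_basis_closedBall.mem_iff.mp (hU.mem_nhds hx)
  have := mem_interior_image_ball hn f x hr (hf.mono hrU) (hinj.mono hrU)
  rw [mem_interior_iff_mem_nhds] at this
  exact Filter.mem_of_superset this (Set.image_mono hrU)

end Pool.Agent.Lib.InvDomain
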