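import Mathlib

set_option autoImplicit false

open MeasureTheory Polynomial

namespace Pool.Agent.Lib.InvDomain

variable {n : ℕ}

/-- evaluation of a polynomial with continuous coefficients at the point `x` and the time `t` -/
noncomputable def ev (x : EuclideanSpace ℝ (Fin n)) (t : ℝ) :
    Polynomial C(EuclideanSpace ℝ (Fin n), ℝ) →+* ℝ :=
  Polynomial.eval₂RingHom (ContinuousMap.evalAlgHom ℝ ℝ x : C(EuclideanSpace ℝ (Fin n), ℝ) →+* ℝ) t

theorem ev_C (x : EuclideanSpace ℝ (Fin n)) (t : ℝ) (f : C(EuclideanSpace ℝ (Fin n), ℝ)) :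
    ev x t (C f) = f x := by
  simp [ev]

theorem ev_X (x : EuclideanSpace ℝ (Fin n)) (t : ℝ) :
    ev x t X = t := by
  simp [ev]

theorem ev_eq_sum (x : EuclideanSpace ℝ (Fin n)) (t : ℝ) (P : Polynomial C(EuclideanSpace ℝ (Fin n), ℝ)) :
    ev x t P = ∑ k ∈ Finset.range (P.natDegree + 1), (P.coeff k) x * t ^ k := by
  simp only [ev, coe_eval₂RingHom]
  rw [eval₂_eq_sum_range]
  rfl

theorem ev_continuous (t : ℝ) (P : Polynomial C(EuclideanSpace ℝ (Fin n), ℝ)) :
    Continuous (fun x => ev x t P) := by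
  simp only [ev_eq_sum]
  fun_prop

/-- integrating over a compact set gives a polynomial in the time -/
theorem exists_poly_integral (K : Set (EuclideanSpace ℝ (Fin n))) (hK : IsCompact K)
    (P : Polynomial C(EuclideanSpace ℝ (Fin n), ℝ)) :
    ∃ Q : Polynomial ℝ, ∀ t : ℝ, ∫ x in K, ev x t P = Q.eval t := by
  refine ⟨∑ k ∈ Finset.range (P.natDegree + 1), C (∫ x in K, (P.coeff k) x) * X ^ k, ?_⟩
  intro t
  simp only [ev_eq_sum]
  rw [integral_finsetSum]
  · simp only [eval_finsetSum, eval_mul, eval_C, eval_pow, eval_X]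
    refine Finset.sum_congr rfl fun k _ => ?_
    rw [integral_mul_const]
  · intro k _
    have : Continuous (fun x => (P.coeff k) x * t ^ k) := by fun_prop
    exact this.continuousOn.integrableOn_compact hK

/-- a polynomial which is constant near zero is constant -/
theorem poly_const (Q : Polynomial ℝ) (c t0 : ℝ) (h0 : 0 < t0)
    (h : ∀ t : ℝ, 0 < t → t < t0 → Q.eval t = c) (s : ℝ) : Q.eval s = c := by
  have : Q - C c = 0 := by
    apply Polynomial.eq_zero_of_infinite_isRoot
    apply Set.Infinite.mono (s := Set.Ioo 0 t0)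
    · intro t ht
      simp only [Set.mem_ofPred_eq, IsRoot.def, eval_sub, eval_C]
      rw [h t ht.1 ht.2, sub_self]
    · exact Set.Ioo_infinite h0
  have h2 : (Q - C c).eval s = 0 := by rw [this]; simp
  simp only [eval_sub, eval_C] at h2
  linarith

end Pool.Agent.Lib.InvDomain
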