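import Pool.Agent.Lib.InvDomain.Poly

set_option autoImplicit false

open MeasureTheory Polynomial Metric Topology

namespace Pool.Agent.Lib.InvDomain

variable {n : ℕ}

/-- the displaced map -/
def hmap (g : EuclideanSpace ℝ (Fin n) → EuclideanSpace ℝ (Fin n)) (t : ℝ)
    (x : EuclideanSpace ℝ (Fin n)) : EuclideanSpace ℝ (Fin n) := x + t • g x

theorem hmap_inj {g : EuclideanSpace ℝ (Fin n) → EuclideanSpace ℝ (Fin n)} {L : NNReal}
    (hL : LipschitzWith L g) {t : ℝ} (ht : 0 ≤ t) (htL : t * L < 1) :
    Function.Injective (hmap g t) := by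
  intro x y hxy
  unfold hmap at hxy
  have h1 : x - y = t • (g y - g x) := by
    rw [smul_sub]
    rw [← sub_eq_zero] at hxy ⊢
    rw [← hxy]; abel
  have h2 : ‖x - y‖ ≤ t * L * ‖x - y‖ := by
    calc ‖x - y‖ = t * ‖g y - g x‖ := by
          conv_lhs => rw [h1]
          rw [norm_smul, Real.norm_eq_abs, abs_of_nonneg ht]
      _ ≤ t * (L * ‖y - x‖) := by
          gcongr
          exact hL.norm_sub_le y x
      _ = t * L * ‖x - y‖ := by rw [norm_sub_rev y x]; ring
  have h3 : ‖x - y‖ = 0 := by
    by_contra h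
    have h4 : 0 < ‖x - y‖ := lt_of_le_of_ne (norm_nonneg _) (Ne.symm h)
    nlinarith
  exact sub_eq_zero.mp (norm_eq_zero.mp h3)

theorem hmap_surj {g : EuclideanSpace ℝ (Fin n) → EuclideanSpace ℝ (Fin n)} {L : NNReal}
    (hL : LipschitzWith L g) {t : ℝ} (ht : 0 ≤ t) (htL : t * L < 1) :
    Function.Surjective (hmap g t) := by
  intro y
  have hc : ContractingWith (Real.toNNReal t * L) (fun x => y - t • g x) := by
    refine ⟨?_, ?_⟩
    · rw [← NNReal.coe_lt_coe]
      simp only [NNReal.coe_mul, Real.coe_toNNReal t ht, NNReal.coe_one]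
      exact htL
    · apply LipschitzWith.of_dist_le_mul
      intro a b
      simp only [NNReal.coe_mul, Real.coe_toNNReal t ht]
      rw [dist_eq_norm]
      have : y - t • g a - (y - t • g b) = t • (g b - g a) := by
        rw [smul_sub]; abel
      rw [this, norm_smul, Real.norm_eq_abs, abs_of_nonneg ht, mul_assoc]
      gcongr
      rw [dist_comm, dist_eq_norm]
      exact hL.norm_sub_le b a
  refine ⟨ContractingWith.fixedPoint _ hc, ?_⟩
  have h := hc.fixedPoint_isFixedPt
  unfold Function.IsFixedPt at h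
  unfold hmap
  set z := ContractingWith.fixedPoint _ hc
  rw [← sub_eq_zero]
  have h' : y - t • g z = z := h
  nth_rewrite 1 [← h']
  abel

theorem hmap_image {g : EuclideanSpace ℝ (Fin n) → EuclideanSpace ℝ (Fin n)} {L : NNReal}
    (hL : LipschitzWith L g) {t : ℝ} (ht : 0 ≤ t) (htL : t * L < 1) {r R : ℝ} (hrR : r ≤ R)
    (hg : ∀ x, r ≤ ‖x‖ → g x = 0) :
    hmap g t '' closedBall 0 R = closedBall 0 R := by
  have hfix : ∀ x, r ≤ ‖x‖ → hmap g t x = x := by
    intro x hx
    unfold hmap
    rw [hg x hx]; simp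
  ext y
  simp only [Set.mem_image, mem_closedBall_zero_iff]
  constructor
  · rintro ⟨x, hx, rfl⟩
    by_contra hcon
    push Not at hcon
    have h1 := hfix (hmap g t x) (by linarith)
    have h2 := hmap_inj hL ht htL h1
    rw [h2] at hcon
    linarith
  · intro hy
    obtain ⟨x, rfl⟩ := hmap_surj hL ht htL y
    refine ⟨x, ?_, rfl⟩
    by_contra hcon
    push Not at hcon
    rw [hfix x (by linarith)] at hy
    linarith

/-- matrix of partial derivatives as continuous functions -/
noncomputable def jac (g : EuclideanSpace ℝ (Fin n) → EuclideanSpace ℝ (Fin n)) (hg : ContDiff ℝ 1 g) :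
    Matrix (Fin n) (Fin n) C(EuclideanSpace ℝ (Fin n), ℝ) := fun i j =>
  ⟨fun x => (fderiv ℝ g x (EuclideanSpace.single j 1)) i, by
    have h1 : Continuous (fun x => fderiv ℝ g x) := hg.continuous_fderiv (by norm_num)
    have h2 : Continuous (fun x => fderiv ℝ g x (EuclideanSpace.single j 1)) :=
      h1.clm_apply continuous_const
    exact (PiLp.continuous_apply 2 _ i).comp h2⟩

/-- the determinant polynomial -/
noncomputable def detPoly (g : EuclideanSpace ℝ (Fin n) → EuclideanSpace ℝ (Fin n)) (hg : ContDiff ℝ 1 g) :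
    Polynomial C(EuclideanSpace ℝ (Fin n), ℝ) :=
  (1 + (X : Polynomial C(EuclideanSpace ℝ (Fin n), ℝ)) • (jac g hg).map C : Matrix (Fin n) (Fin n) _).det

theorem ev_detPoly (g : EuclideanSpace ℝ (Fin n) → EuclideanSpace ℝ (Fin n)) (hg : ContDiff ℝ 1 g)
    (x : EuclideanSpace ℝ (Fin n)) (t : ℝ) :
    ev x t (detPoly g hg) =
      (ContinuousLinearMap.id ℝ (EuclideanSpace ℝ (Fin n)) + t • fderiv ℝ g x).det := by
  unfold detPoly
  rw [RingHom.map_det, ContinuousLinearMap.det, ← LinearMap.det_toMatrix (EuclideanSpace.basisFun (Fin n) ℝ).toBasis]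
  congr 1
  ext i j
  rw [LinearMap.toMatrix_apply]
  simp only [RingHom.mapMatrix_apply, Matrix.map_apply, Matrix.add_apply, Matrix.smul_apply, map_add,
    smul_eq_mul, map_mul, ev_X, ev_C]
  simp only [OrthonormalBasis.coe_toBasis, EuclideanSpace.basisFun_apply,
    OrthonormalBasis.coe_toBasis_repr_apply, EuclideanSpace.basisFun_repr]
  simp only [jac, ContinuousMap.coe_mk]
  simp only [ContinuousLinearMap.coe_coe, add_apply, ContinuousLinearMap.coe_id',
    id_eq, smul_apply, PiLp.add_apply, PiLp.smul_apply, smul_eq_mul]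
  congr 1
  rw [Matrix.one_apply]
  split_ifs with h
  · subst h; simp
  · simp [h]

/-- the peak functions `(1 - ‖y - y0‖^2 / (4 R^2))` along `y = x + t g x` as a polynomial in `t` -/
noncomputable def peakPoly (g : EuclideanSpace ℝ (Fin n) → EuclideanSpace ℝ (Fin n)) (hg : ContDiff ℝ 1 g)
    (y0 : EuclideanSpace ℝ (Fin n)) (R : ℝ) : Polynomial C(EuclideanSpace ℝ (Fin n), ℝ) :=
  1 - C (ContinuousMap.const _ (1 / (4 * R ^ 2))) *
    ∑ i, (C ⟨fun x => x i - y0 i, by fun_prop⟩ + X * C ⟨fun x => g x i, by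
      exact (PiLp.continuous_apply 2 _ i).comp hg.continuous⟩) ^ 2

noncomputable def peak (y0 : EuclideanSpace ℝ (Fin n)) (R : ℝ) (y : EuclideanSpace ℝ (Fin n)) : ℝ :=
  1 - 1 / (4 * R ^ 2) * ‖y - y0‖ ^ 2

theorem ev_peakPoly (g : EuclideanSpace ℝ (Fin n) → EuclideanSpace ℝ (Fin n)) (hg : ContDiff ℝ 1 g)
    (y0 : EuclideanSpace ℝ (Fin n)) (R : ℝ) (x : EuclideanSpace ℝ (Fin n)) (t : ℝ) :
    ev x t (peakPoly g hg y0 R) = peak y0 R (hmap g t x) := by
  unfold peakPoly peak hmap
  simp only [map_sub, map_one, map_mul, ev_C, map_sum, map_pow, map_add, ev_X]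
  simp only [ContinuousMap.const_apply, ContinuousMap.coe_mk]
  rw [EuclideanSpace.real_norm_sq_eq]
  congr 2
  refine Finset.sum_congr rfl fun i _ => ?_
  simp only [PiLp.sub_apply, PiLp.add_apply, PiLp.smul_apply, smul_eq_mul]
  ring

theorem hasFDerivAt_hmap (g : EuclideanSpace ℝ (Fin n) → EuclideanSpace ℝ (Fin n)) (hg : ContDiff ℝ 1 g)
    (t : ℝ) (x : EuclideanSpace ℝ (Fin n)) :
    HasFDerivAt (hmap g t)
      (ContinuousLinearMap.id ℝ (EuclideanSpace ℝ (Fin n)) + t • fderiv ℝ g x) x := by
  have h1 : HasFDerivAt g (fderiv ℝ g x) x :=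
    (hg.differentiable (by norm_num)).differentiableAt.hasFDerivAt
  exact (hasFDerivAt_id x).add (h1.const_smul t)

/-- joint continuity of the evaluation -/
theorem ev_continuous' (P : Polynomial C(EuclideanSpace ℝ (Fin n), ℝ)) :
    Continuous (fun p : ℝ × EuclideanSpace ℝ (Fin n) => ev p.2 p.1 P) := by
  have : (fun p : ℝ × EuclideanSpace ℝ (Fin n) => ev p.2 p.1 P) = fun p =>
      ∑ k ∈ Finset.range (P.natDegree + 1), (P.coeff k) p.2 * p.1 ^ k := by
    funext p
    exact ev_eq_sum p.2 p.1 P
  rw [this]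
  fun_prop

theorem det_pos_small (g : EuclideanSpace ℝ (Fin n) → EuclideanSpace ℝ (Fin n)) (hg : ContDiff ℝ 1 g)
    (K : Set (EuclideanSpace ℝ (Fin n))) (hK : IsCompact K) :
    ∀ᶠ t in 𝓝 (0 : ℝ), ∀ x ∈ K, 0 < ev x t (detPoly g hg) := by
  apply hK.eventually_forall_of_forall_eventually
  intro x _
  have h0 : 0 < ev x 0 (detPoly g hg) := by
    have h1 : ContinuousLinearMap.id ℝ (EuclideanSpace ℝ (Fin n)) + (0 : ℝ) • fderiv ℝ g x =
        ContinuousLinearMap.id ℝ (EuclideanSpace ℝ (Fin n)) := by
      ext v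
      simp
    rw [ev_detPoly, h1, ContinuousLinearMap.det]
    simp
  exact (ev_continuous' (detPoly g hg)).continuousAt.eventually (lt_mem_nhds h0)

/-- The change of variables identity: for small times the integral of `(peak ^ N) * det` is the
integral of `peak ^ N`; being polynomial in time, it holds at time `1` too. -/
theorem integral_identity (g : EuclideanSpace ℝ (Fin n) → EuclideanSpace ℝ (Fin n)) (hg : ContDiff ℝ 1 g)
    {r R : ℝ} (hrR : r ≤ R) (hsupp : ∀ x, r ≤ ‖x‖ → g x = 0)
    (y0 : EuclideanSpace ℝ (Fin n)) (N : ℕ) :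
    ∫ x in closedBall (0 : EuclideanSpace ℝ (Fin n)) R,
      (peak y0 R (hmap g 1 x)) ^ N * ev x 1 (detPoly g hg) =
    ∫ y in closedBall (0 : EuclideanSpace ℝ (Fin n)) R, (peak y0 R y) ^ N := by
  have hcs : HasCompactSupport g := by
    apply HasCompactSupport.intro (isCompact_closedBall 0 r)
    intro x hx
    apply hsupp
    simp only [mem_closedBall_zero_iff, not_le] at hx
    exact hx.le
  obtain ⟨L, hL⟩ := ContDiff.lipschitzWith_of_hasCompactSupport hcs hg (by norm_num)
  have hKc : IsCompact (closedBall (0 : EuclideanSpace ℝ (Fin n)) R) := isCompact_closedBall 0 R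
  obtain ⟨Q, hQ⟩ := exists_poly_integral (closedBall (0 : EuclideanSpace ℝ (Fin n)) R) hKc
    (peakPoly g hg y0 R ^ N * detPoly g hg)
  have hQ' : ∀ t : ℝ, ∫ x in closedBall (0 : EuclideanSpace ℝ (Fin n)) R,
      (peak y0 R (hmap g t x)) ^ N * ev x t (detPoly g hg) = Q.eval t := by
    intro t
    rw [← hQ t]
    simp only [map_mul, map_pow, ev_peakPoly]
  -- small times
  have hev1 : ∀ᶠ t in 𝓝 (0 : ℝ), t * (L : ℝ) < 1 := by
    have : ContinuousAt (fun t : ℝ => t * (L : ℝ)) 0 := by fun_prop
    exact this.eventually (gt_mem_nhds (by norm_num))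
  have hev := hev1.and (det_pos_small g hg _ hKc)
  obtain ⟨t0, ht0, hball⟩ := Metric.eventually_nhds_iff.mp hev
  have hsmall : ∀ t : ℝ, 0 < t → t < t0 → Q.eval t =
      ∫ y in closedBall (0 : EuclideanSpace ℝ (Fin n)) R, (peak y0 R y) ^ N := by
    intro t ht htt
    obtain ⟨htL, hdet⟩ := hball (y := t) (by rw [Real.dist_eq, sub_zero, abs_of_pos ht]; exact htt)
    rw [← hQ' t]
    have hinj : Set.InjOn (hmap g t) (closedBall (0 : EuclideanSpace ℝ (Fin n)) R) :=
      (hmap_inj hL ht.le htL).injOn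
    have key := integral_image_eq_integral_abs_det_fderiv_smul (μ := volume)
      (s := closedBall (0 : EuclideanSpace ℝ (Fin n)) R) (f := hmap g t)
      (f' := fun x => ContinuousLinearMap.id ℝ (EuclideanSpace ℝ (Fin n)) + t • fderiv ℝ g x)
      measurableSet_closedBall
      (fun x _ => (hasFDerivAt_hmap g hg t x).hasFDerivWithinAt) hinj (fun y => (peak y0 R y) ^ N)
    rw [hmap_image hL ht.le htL hrR hsupp] at key
    rw [key]
    apply setIntegral_congr_fun measurableSet_closedBall
    intro x hx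
    simp only
    rw [← ev_detPoly g hg x t, abs_of_pos (hdet x hx), smul_eq_mul, mul_comm]
  have := poly_const Q _ t0 ht0 hsmall 1
  rw [← this, ← hQ' 1]

/-- **A `C^1` map of `ℝ^n` which is the identity outside a ball is surjective.** -/
theorem surjective_of_contDiff (G : EuclideanSpace ℝ (Fin n) → EuclideanSpace ℝ (Fin n))
    (hG : ContDiff ℝ 1 G) {r : ℝ} (hr : 0 < r) (hid : ∀ x, r ≤ ‖x‖ → G x = x) :
    Function.Surjective G := by
  intro y0
  by_contra hcon
  push Not at hcon
  have hy0 : ‖y0‖ < r := by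
    by_contra h
    push Not at h
    exact hcon y0 (hid y0 h)
  set g : EuclideanSpace ℝ (Fin n) → EuclideanSpace ℝ (Fin n) := fun x => G x - x with hgdef
  have hg : ContDiff ℝ 1 g := hG.sub contDiff_id
  have hsupp : ∀ x, r ≤ ‖x‖ → g x = 0 := by
    intro x hx
    simp only [hgdef]
    rw [hid x hx, sub_self]
  have hG1 : ∀ x, hmap g 1 x = G x := by
    intro x; simp [hmap, hgdef]
  -- bound for `G` on the ball
  obtain ⟨M, hM⟩ := (isCompact_closedBall (0 : EuclideanSpace ℝ (Fin n)) r).exists_bound_of_continuousOn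
    hG.continuous.continuousOn
  set R := max r M with hR
  have hrR : r ≤ R := le_max_left _ _
  have hR0 : 0 < R := lt_of_lt_of_le hr hrR
  have hGR : ∀ x, ‖x‖ ≤ R → ‖G x‖ ≤ R := by
    intro x hx
    by_cases h : ‖x‖ ≤ r
    · exact (hM x (by simpa using h)).trans (le_max_right _ _)
    · push Not at h
      rw [hid x h.le]; exact hx
  have hKc : IsCompact (closedBall (0 : EuclideanSpace ℝ (Fin n)) R) := isCompact_closedBall 0 R
  -- distance from `y0` to the image
  obtain ⟨x1, hx1m, hx1⟩ := hKc.exists_isMinOn ⟨0, by simp [hR0.le]⟩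
    (f := fun x => ‖G x - y0‖) ((hG.continuous.sub continuous_const).norm.continuousOn)
  set δ := ‖G x1 - y0‖ with hδ
  have hδ0 : 0 < δ := by
    rw [hδ, norm_pos_iff, sub_ne_zero]
    exact hcon x1
  have hδle : ∀ x ∈ closedBall (0 : EuclideanSpace ℝ (Fin n)) R, δ ≤ ‖G x - y0‖ := fun x hx => hx1 hx
  set δ' := min (δ / 2) (r - ‖y0‖) with hδ'
  have hδ'0 : 0 < δ' := lt_min (by linarith) (by linarith)
  have hδ'δ : δ' < δ := lt_of_le_of_lt (min_le_left _ _) (by linarith)
  set a := 1 / (4 * R ^ 2) with ha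
  have ha0 : 0 < a := by positivity
  have hab : ∀ u : EuclideanSpace ℝ (Fin n), ‖u‖ ≤ R → a * ‖u - y0‖ ^ 2 ≤ 1 := by
    intro u hu
    have h1 : ‖u - y0‖ ≤ 2 * R := by
      calc ‖u - y0‖ ≤ ‖u‖ + ‖y0‖ := norm_sub_le _ _
        _ ≤ R + R := by linarith
        _ = 2 * R := by ring
    have h2 : ‖u - y0‖ ^ 2 ≤ 4 * R ^ 2 := by
      have := norm_nonneg (u - y0)
      nlinarith
    rw [ha, div_mul_eq_mul_div, one_mul, div_le_one (by positivity)]
    exact h2
  set q := 1 - a * δ ^ 2 with hq
  set q' := 1 - a * δ' ^ 2 with hq'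
  have hq0 : 0 ≤ q := by
    have h1 := hab (G x1) (hGR x1 (by simpa using hx1m))
    rw [hq]; linarith
  have hqq' : q < q' := by
    rw [hq, hq']
    have : δ' ^ 2 < δ ^ 2 := by nlinarith
    nlinarith
  have hq'0 : 0 < q' := lt_of_le_of_lt hq0 hqq'
  set D : EuclideanSpace ℝ (Fin n) → ℝ := fun x => ev x 1 (detPoly g hg) with hD
  have hDc : Continuous D := ev_continuous 1 _
  have hpc : Continuous (peak y0 R : EuclideanSpace ℝ (Fin n) → ℝ) := by
    unfold peak; fun_prop
  set C0 := ∫ x in closedBall (0 : EuclideanSpace ℝ (Fin n)) R, |D x| with hC0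
  set c := (volume (ball y0 δ')).toReal with hc
  have hc0 : 0 < c := by
    rw [hc]
    exact ENNReal.toReal_pos (measure_ball_pos volume y0 hδ'0).ne' measure_ball_lt_top.ne
  have hsub : ball y0 δ' ⊆ closedBall (0 : EuclideanSpace ℝ (Fin n)) R := by
    intro y hy
    rw [mem_ball, dist_eq_norm] at hy
    rw [mem_closedBall_zero_iff]
    have h1 : ‖y‖ ≤ ‖y - y0‖ + ‖y0‖ := by
      calc ‖y‖ = ‖(y - y0) + y0‖ := by rw [sub_add_cancel]
        _ ≤ _ := norm_add_le _ _
    have h2 : δ' ≤ r - ‖y0‖ := min_le_right _ _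
    linarith
  have main : ∀ N : ℕ, q' ^ N * c ≤ q ^ N * C0 := by
    intro N
    have h1 := integral_identity g hg hrR hsupp y0 N
    simp only [hG1] at h1
    have hup : ∫ x in closedBall (0 : EuclideanSpace ℝ (Fin n)) R, (peak y0 R (G x)) ^ N * D x
        ≤ q ^ N * C0 := by
      rw [hC0, ← integral_const_mul]
      apply setIntegral_mono_on
      · exact (((hpc.comp hG.continuous).pow N).mul hDc).continuousOn.integrableOn_compact hKc
      · exact (continuous_const.mul hDc.abs).continuousOn.integrableOn_compact hKc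
      · exact measurableSet_closedBall
      · intro x hx
        have hx' : ‖x‖ ≤ R := by simpa using hx
        have p1 : 0 ≤ peak y0 R (G x) := by
          have := hab (G x) (hGR x hx')
          unfold peak
          rw [← ha]; linarith
        have p2 : peak y0 R (G x) ≤ q := by
          unfold peak
          rw [← ha, hq]
          have h3 := hδle x hx
          have h4 : δ ^ 2 ≤ ‖G x - y0‖ ^ 2 := by nlinarith
          nlinarith
        calc (peak y0 R (G x)) ^ N * D x ≤ (peak y0 R (G x)) ^ N * |D x| := by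
              gcongr
              exact le_abs_self _
          _ ≤ q ^ N * |D x| := by gcongr
    have hlow : q' ^ N * c ≤ ∫ y in closedBall (0 : EuclideanSpace ℝ (Fin n)) R, (peak y0 R y) ^ N := by
      have hint : IntegrableOn (fun y => (peak y0 R y) ^ N) (closedBall (0 : EuclideanSpace ℝ (Fin n)) R) :=
        (hpc.pow N).continuousOn.integrableOn_compact hKc
      calc q' ^ N * c = ∫ y in ball y0 δ', q' ^ N := by
            rw [setIntegral_const, smul_eq_mul, hc, mul_comm]
            rfl
        _ ≤ ∫ y in ball y0 δ', (peak y0 R y) ^ N := by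
            apply setIntegral_mono_on
            · exact integrableOn_const (measure_ball_lt_top.ne)
            · exact hint.mono_set hsub
            · exact measurableSet_ball
            · intro y hy
              rw [mem_ball, dist_eq_norm] at hy
              have p2 : q' ≤ peak y0 R y := by
                unfold peak
                rw [← ha, hq']
                have h4 : ‖y - y0‖ ^ 2 ≤ δ' ^ 2 := by
                  have := norm_nonneg (y - y0)
                  nlinarith
                nlinarith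
              gcongr
        _ ≤ _ := by
            apply setIntegral_mono_set hint
            · filter_upwards [ae_restrict_mem measurableSet_closedBall] with y hy
              have hy' : ‖y‖ ≤ R := by simpa using hy
              have := hab y hy'
              have p1 : 0 ≤ peak y0 R y := by
                unfold peak
                rw [← ha]; linarith
              exact pow_nonneg p1 N
            · exact Filter.Eventually.of_forall hsub
    rw [← h1] at hlow
    exact hlow.trans hup
  have hlim : Filter.Tendsto (fun N : ℕ => (q / q') ^ N * C0) Filter.atTop (𝓝 (0 * C0)) := by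
    apply Filter.Tendsto.mul_const
    apply tendsto_pow_atTop_nhds_zero_of_lt_one
    · positivity
    · rw [div_lt_one hq'0]; exact hqq'
  rw [zero_mul] at hlim
  obtain ⟨N, hN⟩ := (hlim.eventually (gt_mem_nhds hc0)).exists
  have h1 := main N
  have h2 : (q / q') ^ N * C0 * q' ^ N < c * q' ^ N := by
    have : 0 < q' ^ N := by positivity
    nlinarith
  have h3 : (q / q') ^ N * C0 * q' ^ N = q ^ N * C0 := by
    rw [div_pow]
    field_simp
  rw [h3] at h2
  linarith

end Pool.Agent.Lib.InvDomain
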