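import Pool.Agent.Lib.InvDomain.Surj

set_option autoImplicit false

open MeasureTheory Metric Topology
open scoped Manifold ContDiff

namespace Pool.Agent.Lib.InvDomain

variable {n : ℕ}

/-- uniform `C^1` approximation of continuous maps -/
theorem exists_smooth_approx (g : EuclideanSpace ℝ (Fin n) → EuclideanSpace ℝ (Fin n))
    (hg : Continuous g) {ε : ℝ} (hε : 0 < ε) :
    ∃ f : EuclideanSpace ℝ (Fin n) → EuclideanSpace ℝ (Fin n), ContDiff ℝ 1 f ∧ ∀ x, ‖f x - g x‖ < ε := by
  obtain ⟨f, hf⟩ := exists_contMDiffMap_forall_mem_convex_of_local_const (n := 1)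
    (M := EuclideanSpace ℝ (Fin n)) (F := EuclideanSpace ℝ (Fin n)) 𝓘(ℝ, EuclideanSpace ℝ (Fin n))
    (t := fun x => ball (g x) ε) (fun x => convex_ball _ _) (fun x => by
      refine ⟨g x, ?_⟩
      have h1 : ∀ᶠ y in 𝓝 x, dist (g y) (g x) < ε :=
        hg.continuousAt.eventually (ball_mem_nhds (g x) hε)
      filter_upwards [h1] with y hy
      rw [mem_ball, dist_comm]; exact hy)
  refine ⟨f, f.contMDiff.contDiff, fun x => ?_⟩
  have := hf x
  rw [mem_ball, dist_eq_norm] at this
  exact this

/-- a continuous map equal to the identity outside a ball has a zero -/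
theorem exists_zero_of_continuous (G : EuclideanSpace ℝ (Fin n) → EuclideanSpace ℝ (Fin n))
    (hG : Continuous G) {r : ℝ} (hr : 0 < r) (hid : ∀ x, r ≤ ‖x‖ → G x = x) :
    ∃ x, G x = 0 := by
  by_contra hcon
  push Not at hcon
  have hKc : IsCompact (closedBall (0 : EuclideanSpace ℝ (Fin n)) (2 * r)) := isCompact_closedBall 0 _
  obtain ⟨x1, hx1m, hx1⟩ := hKc.exists_isMinOn ⟨0, by simp; linarith⟩
    (f := fun x => ‖G x‖) (hG.norm.continuousOn)
  set m := ‖G x1‖ with hm
  have hm0 : 0 < m := norm_pos_iff.mpr (hcon x1)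
  have hmle : ∀ x, ‖x‖ ≤ 2 * r → m ≤ ‖G x‖ := fun x hx => hx1 (by simpa using hx)
  obtain ⟨f, hf, hfa⟩ := exists_smooth_approx (fun x => G x - x) (hG.sub continuous_id) hm0
  let χ : ContDiffBump (0 : EuclideanSpace ℝ (Fin n)) := ⟨r, 2 * r, hr, by linarith⟩
  set H : EuclideanSpace ℝ (Fin n) → EuclideanSpace ℝ (Fin n) := fun x => x + χ x • f x with hH
  have hHc : ContDiff ℝ 1 H := by
    apply contDiff_id.add
    exact χ.contDiff.smul hf
  have hHid : ∀ x, 2 * r ≤ ‖x‖ → H x = x := by
    intro x hx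
    have : χ x = 0 := χ.zero_of_le_dist (by simpa using hx)
    simp [hH, this]
  obtain ⟨x, hx⟩ := surjective_of_contDiff H hHc (by linarith) hHid 0
  have hx2 : ‖x‖ < 2 * r := by
    by_contra h
    push Not at h
    have := hHid x h
    rw [hx] at this
    rw [← this, norm_zero] at h
    linarith
  have h1 := hfa x
  have hle := hmle x hx2.le
  by_cases h : ‖x‖ ≤ r
  · have h2 : χ x = 1 := χ.one_of_mem_closedBall (by simpa using h)
    have h3 : x + f x = 0 := by
      have := hx
      simp only [hH, h2, one_smul] at this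
      exact this
    have h4 : f x - (G x - x) = - G x := by
      have : f x = - x := by
        rw [eq_neg_iff_add_eq_zero, add_comm]; exact h3
      rw [this]; abel
    rw [h4, norm_neg] at h1
    linarith
  · push Not at h
    have h2 : G x = x := hid x h.le
    rw [h2, sub_self, sub_zero] at h1
    have h3 : x = - (χ x • f x) := by
      rw [eq_neg_iff_add_eq_zero]
      exact hx
    have h4 : ‖x‖ = χ x * ‖f x‖ := by
      have := congrArg norm h3
      rw [norm_neg, norm_smul, Real.norm_eq_abs, abs_of_nonneg χ.nonneg] at this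
      exact this
    have h5 : ‖x‖ ≤ ‖f x‖ := by
      rw [h4]
      have := χ.le_one (x := x)
      have := norm_nonneg (f x)
      nlinarith
    rw [h2] at hle
    linarith

/-- **Zero lemma** (a form of the Brouwer fixed point theorem): a continuous map of the closed unit
ball into `ℝ^n` that moves no point by more than `1` has a zero. -/
theorem exists_zero_of_close (G : EuclideanSpace ℝ (Fin n) → EuclideanSpace ℝ (Fin n))
    (hG : ContinuousOn G (closedBall 0 1)) (hclose : ∀ x ∈ closedBall (0 : EuclideanSpace ℝ (Fin n)) 1, ‖G x - x‖ ≤ 1) :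
    ∃ x ∈ closedBall (0 : EuclideanSpace ℝ (Fin n)) 1, G x = 0 := by
  set ρ : EuclideanSpace ℝ (Fin n) → EuclideanSpace ℝ (Fin n) := fun x => (max 1 ‖x‖)⁻¹ • x with hρ
  set s : EuclideanSpace ℝ (Fin n) → ℝ := fun x => min 1 (max 0 (2 - ‖x‖)) with hs
  have hmax : ∀ x : EuclideanSpace ℝ (Fin n), 0 < max 1 ‖x‖ := fun x => lt_of_lt_of_le one_pos (le_max_left _ _)
  have hρc : Continuous ρ := by
    have h1 : Continuous (fun x : EuclideanSpace ℝ (Fin n) => (max 1 ‖x‖)⁻¹) :=
      Continuous.inv₀ (by fun_prop) (fun x => (hmax x).ne')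
    exact h1.smul continuous_id
  have hρm : ∀ x, ρ x ∈ closedBall (0 : EuclideanSpace ℝ (Fin n)) 1 := by
    intro x
    rw [mem_closedBall_zero_iff]
    simp only [hρ, norm_smul, norm_inv, Real.norm_eq_abs, abs_of_pos (hmax x)]
    rw [inv_mul_le_iff₀ (hmax x), mul_one]
    exact le_max_right _ _
  have hsc : Continuous s := by fun_prop
  set H : EuclideanSpace ℝ (Fin n) → EuclideanSpace ℝ (Fin n) := fun x => s x • G (ρ x) + (1 - s x) • x with hH
  have hHc : Continuous H := by
    apply Continuous.add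
    · apply hsc.smul
      exact hG.comp_continuous hρc hρm
    · exact (continuous_const.sub hsc).smul continuous_id
  have hHid : ∀ x, 2 ≤ ‖x‖ → H x = x := by
    intro x hx
    have : s x = 0 := by
      simp only [hs]
      rw [max_eq_left (by linarith), min_eq_right zero_le_one]
    simp [hH, this]
  obtain ⟨x, hx⟩ := exists_zero_of_continuous H hHc (by norm_num) hHid
  by_cases h : ‖x‖ ≤ 1
  · refine ⟨x, by simpa using h, ?_⟩
    have h1 : s x = 1 := by
      simp only [hs]
      rw [max_eq_right (by linarith), min_eq_left (by linarith)]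
    have h2 : ρ x = x := by
      simp only [hρ]
      rw [max_eq_left h]; simp
    simp only [hH, h1, h2, one_smul, sub_self, zero_smul, add_zero] at hx
    exact hx
  · push Not at h
    exfalso
    have hx2 : ‖x‖ < 2 := by
      by_contra h'
      push Not at h'
      have := hHid x h'
      rw [hx] at this
      rw [← this, norm_zero] at h'
      linarith
    have h1 : s x = 2 - ‖x‖ := by
      simp only [hs]
      rw [max_eq_right (by linarith), min_eq_right (by linarith)]
    have h2 : ρ x = ‖x‖⁻¹ • x := by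
      simp only [hρ]
      rw [max_eq_right h.le]
    set e := ‖x‖⁻¹ • x with he
    have hxn : ‖x‖ ≠ 0 := by linarith
    have hxe : x = ‖x‖ • e := by
      rw [he, smul_smul, mul_inv_cancel₀ hxn, one_smul]
    have hen : ‖e‖ = 1 := by
      rw [he, norm_smul, norm_inv, norm_norm, inv_mul_cancel₀ hxn]
    have hem : e ∈ closedBall (0 : EuclideanSpace ℝ (Fin n)) 1 := by
      rw [mem_closedBall_zero_iff, hen]
    have h3 := hclose e hem
    simp only [hH, h1, h2] at hx
    -- (2 - ‖x‖) G e + (‖x‖ - 1) x = 0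
    have h4 : ((2 - ‖x‖) + (1 - (2 - ‖x‖)) * ‖x‖) • e = - ((2 - ‖x‖) • (G e - e)) := by
      rw [eq_neg_iff_add_eq_zero]
      have h44 : (1 - (2 - ‖x‖)) • x = (1 - (2 - ‖x‖)) • (‖x‖ • e) := by rw [← hxe]
      rw [h44] at hx
      rw [← hx]
      module
    have h5 := congrArg norm h4
    rw [norm_smul, hen, mul_one, norm_neg, norm_smul, Real.norm_eq_abs, Real.norm_eq_abs,
      abs_of_pos (show 0 < 2 - ‖x‖ by linarith)] at h5
    have h6 : 0 < (2 - ‖x‖) + (1 - (2 - ‖x‖)) * ‖x‖ := by nlinarith
    rw [abs_of_pos h6] at h5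
    have h7 : (2 - ‖x‖) * ‖G e - e‖ ≤ (2 - ‖x‖) * 1 := by
      apply mul_le_mul_of_nonneg_left h3; linarith
    nlinarith

end Pool.Agent.Lib.InvDomain
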